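import Mathlib
import Pool.Agent.Helper5.Pf.Defs

set_option autoImplicit false
open MeasureTheory Set Filter Topology

namespace Pool.Agent.Helper5.PG

theorem gex_norm (γ : ℂ) (t : ℝ) : ‖Complex.exp (γ * t)‖ = Real.exp (γ.re * t) := by
  rw [Complex.norm_exp]
  congr 1
  simp

theorem gex_u (γ : ℂ) : ∀ t : ℝ, ‖Complex.exp (-(γ * t)) * ((Real.exp (γ.re * t) : ℝ) : ℂ)‖ = 1 := by
  intro t
  rw [norm_mul, Complex.norm_real, Real.norm_eq_abs, abs_of_pos (Real.exp_pos _),
    Complex.norm_exp, ← Real.exp_add]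
  simp

theorem gex_u' (γ : ℂ) : ∀ t : ℝ, ‖Complex.exp (γ * t) * ((Real.exp (-(γ.re * t)) : ℝ) : ℂ)‖ = 1 := by
  intro t
  rw [norm_mul, Complex.norm_real, Real.norm_eq_abs, abs_of_pos (Real.exp_pos _),
    Complex.norm_exp, ← Real.exp_add]
  simp

theorem gex_int (u F G : ℝ → ℂ) (hu : Continuous u) (h1 : ∀ t, ‖u t‖ = 1)
    (hFG : ∀ t, F t = u t * G t) (hG : IntegrableOn G (Ioi 0)) : IntegrableOn F (Ioi 0) := by
  have e : F = fun t => u t * G t := funext hFG
  have hm : AEStronglyMeasurable (fun t => u t * G t) (volume.restrict (Ioi (0:ℝ))) :=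
    hu.aestronglyMeasurable.mul hG.aestronglyMeasurable
  rw [e]
  refine Integrable.mono hG hm (Filter.Eventually.of_forall fun t => ?_)
  rw [norm_mul, h1, one_mul]

theorem gex_fwd (w : ℝ → ℝ) (γ : ℂ) (f : ℝ → ℂ) (h : InL1 w (fun t => Complex.exp (γ * t) * f t)) :
    InL1 (fun t => w t * Real.exp (γ.re * t)) f := by
  refine gex_int (fun t : ℝ => Complex.exp (-(γ * t)) * ((Real.exp (γ.re * t) : ℝ) : ℂ)) _ _ ?_
    (gex_u γ) ?_ h
  · fun_prop
  · intro t
    have h2 : Complex.exp (-(γ * t)) * Complex.exp (γ * t) = 1 := by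
      rw [← Complex.exp_add]
      simp
    push_cast
    calc f t * ((w t : ℂ) * Complex.exp (γ.re * t)) =
          (Complex.exp (-(γ * t)) * Complex.exp (γ * t)) * (f t * ((w t : ℂ) * Complex.exp (γ.re * t))) := by
            rw [h2, one_mul]
      _ = _ := by ring

theorem gex_bwd (w : ℝ → ℝ) (γ : ℂ) (f : ℝ → ℂ) (h : InL1 (fun t => w t * Real.exp (γ.re * t)) f) :
    InL1 w (fun t => Complex.exp (γ * t) * f t) := by
  refine gex_int (fun t : ℝ => Complex.exp (γ * t) * ((Real.exp (-(γ.re * t)) : ℝ) : ℂ)) _ _ ?_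
    (gex_u' γ) ?_ h
  · fun_prop
  · intro t
    have h2 : Complex.exp (-(γ.re * t)) * Complex.exp (γ.re * t) = 1 := by
      rw [← Complex.exp_add]
      simp
    push_cast
    calc Complex.exp (γ * t) * f t * (w t : ℂ) =
          (Complex.exp (-(γ.re * t)) * Complex.exp (γ.re * t)) * (Complex.exp (γ * t) * f t * (w t : ℂ)) := by
            rw [h2, one_mul]
      _ = _ := by ring

theorem gex_cv (γ : ℂ) (f g : ℝ → ℂ) (t : ℝ) :
    cv (fun t => Complex.exp (γ * t) * f t) (fun t => Complex.exp (γ * t) * g t) t =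
      Complex.exp (γ * t) * cv f g t := by
  unfold cv
  rw [← intervalIntegral.integral_const_mul]
  refine intervalIntegral.integral_congr (fun s _ => ?_)
  have h2 : Complex.exp (γ * ((t - s : ℝ) : ℂ)) * Complex.exp (γ * s) = Complex.exp (γ * t) := by
    rw [← Complex.exp_add]
    congr 1
    push_cast
    ring
  calc Complex.exp (γ * ((t - s : ℝ) : ℂ)) * f (t - s) * (Complex.exp (γ * s) * g s) =
        (Complex.exp (γ * ((t - s : ℝ) : ℂ)) * Complex.exp (γ * s)) * (f (t - s) * g s) := by ring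
    _ = _ := by rw [h2]

theorem gex_cpow (γ : ℂ) (f : ℝ → ℂ) (k : ℕ) :
    cpow (fun t => Complex.exp (γ * t) * f t) k =
      fun t : ℝ => Complex.exp (γ * t) * cpow f k t := by
  induction k with
  | zero => rfl
  | succ k ih =>
    funext t
    change cv (fun t => Complex.exp (γ * t) * f t) (cpow (fun t => Complex.exp (γ * t) * f t) k) t =
      Complex.exp (γ * t) * cv f (cpow f k) t
    rw [ih]
    exact gex_cv γ f (cpow f k) t



theorem gen_expo (w : ℝ → ℝ) (hw : IsWeight w) (γ : ℂ) (f : ℝ → ℂ)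
    (h : IsPolyGen w (fun t => Complex.exp (γ * t) * f t)) :
    IsWeight (fun t => w t * Real.exp (γ.re * t)) ∧
    IsPolyGen (fun t => w t * Real.exp (γ.re * t)) f := by
  obtain ⟨h1, h2⟩ := h
  refine ⟨⟨?_, ?_, ?_⟩, gex_fwd w γ f h1, ?_⟩
  · exact hw.cont.mul (by fun_prop)
  · intro t ht
    exact mul_pos (hw.pos t ht) (Real.exp_pos _)
  · intro s t hs ht
    have h3 := hw.submul s t hs ht
    have h4 : Real.exp (γ.re * (s + t)) = Real.exp (γ.re * s) * Real.exp (γ.re * t) := by
      rw [← Real.exp_add]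
      congr 1
      ring
    have h5 : 0 < Real.exp (γ.re * s) * Real.exp (γ.re * t) := by positivity
    calc w (s + t) * Real.exp (γ.re * (s + t)) =
          w (s + t) * (Real.exp (γ.re * s) * Real.exp (γ.re * t)) := by rw [h4]
      _ ≤ (w s * w t) * (Real.exp (γ.re * s) * Real.exp (γ.re * t)) :=
          mul_le_mul_of_nonneg_right h3 h5.le
      _ = _ := by ring
  · intro g hg ε hε
    obtain ⟨n, c, hc⟩ := h2 _ (gex_bwd w γ g hg) ε hε
    refine ⟨n, c, lt_of_le_of_lt (le_of_eq ?_) hc⟩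
    refine lintegral_congr (fun t => ?_)
    congr 1
    have h3 : Complex.exp (γ * t) * g t - ∑ k ∈ Finset.range n, c k *
        cpow (fun t => Complex.exp (γ * t) * f t) k t =
        Complex.exp (γ * t) * (g t - ∑ k ∈ Finset.range n, c k * cpow f k t) := by
      rw [mul_sub, Finset.mul_sum]
      congr 1
      refine Finset.sum_congr rfl (fun k _ => ?_)
      rw [gex_cpow]
      ring
    rw [h3, norm_mul, gex_norm]
    ring

end Pool.Agent.Helper5.PG
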