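import Mathlib
import Pool.Agent.Helper5.Pf.Defs

set_option autoImplicit false
open MeasureTheory Set Filter Topology

namespace Pool.Agent.Helper5.PG

theorem gs_cpow (s : ℝ) (hs : 0 < s) (f : ℝ → ℂ) (k : ℕ) : ∀ t : ℝ,
    cpow (fun t => f (s * t)) k t = ((s : ℂ)⁻¹) ^ k * cpow f k (s * t) := by
  induction k with
  | zero => intro t; simp [cpow]
  | succ k ih =>
    intro t
    show cv (fun t => f (s * t)) (cpow (fun t => f (s * t)) k) t = _ * cv f (cpow f k) (s * t)
    unfold cv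
    have h1 : (∫ r in (0:ℝ)..t, (fun t => f (s * t)) (t - r) * cpow (fun t => f (s * t)) k r) =
        ∫ r in (0:ℝ)..t, (fun r' => ((s : ℂ)⁻¹) ^ k * (f (s * t - r') * cpow f k r')) (s * r) := by
      congr 1
      funext r
      rw [ih r]
      simp only [mul_sub]
      ring
    rw [h1, intervalIntegral.integral_comp_mul_left (fun r' => ((s : ℂ)⁻¹) ^ k * (f (s * t - r') * cpow f k r')) hs.ne',
      mul_zero, intervalIntegral.integral_const_mul, pow_succ]
    rw [Complex.real_smul, Complex.ofReal_inv]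
    ring

theorem gs_lint (s : ℝ) (hs : 0 < s) (G : ℝ → ENNReal) :
    ∫⁻ t in Ioi (0:ℝ), G (s * t) = ENNReal.ofReal s⁻¹ * ∫⁻ t in Ioi (0:ℝ), G t := by
  rw [← lintegral_indicator measurableSet_Ioi, ← lintegral_indicator measurableSet_Ioi]
  have h1 : (fun t => (Ioi (0:ℝ)).indicator (fun t => G (s * t)) t) =
      fun t => ((Ioi (0:ℝ)).indicator G) ((Homeomorph.mulLeft₀ s hs.ne') t) := by
    funext t
    have h2 : (Homeomorph.mulLeft₀ s hs.ne') t = s * t := rfl
    rw [h2]
    by_cases ht : 0 < t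
    · rw [indicator_of_mem (show t ∈ Ioi (0:ℝ) from ht),
        indicator_of_mem (show s * t ∈ Ioi (0:ℝ) from mul_pos hs ht)]
    · rw [indicator_of_notMem (show t ∉ Ioi (0:ℝ) from ht),
        indicator_of_notMem (show s * t ∉ Ioi (0:ℝ) from fun h => ht (pos_of_mul_pos_right h hs.le))]
  rw [h1, ← (Homeomorph.mulLeft₀ s hs.ne').measurableEmbedding.lintegral_map]
  have h3 : Measure.map (⇑(Homeomorph.mulLeft₀ s hs.ne')) volume = ENNReal.ofReal |s⁻¹| • (volume : Measure ℝ) :=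
    Real.map_volume_mul_left hs.ne'
  rw [h3, lintegral_smul_measure, abs_of_pos (inv_pos.2 hs), smul_eq_mul]



theorem gen_scale (w : ℝ → ℝ) (hw : IsWeight w) (s : ℝ) (hs : 0 < s) (f : ℝ → ℂ)
    (h : IsPolyGen w f) : IsPolyGen (fun t => w (s * t)) (fun t => f (s * t)) := by
  refine ⟨?_, ?_⟩
  · have h1 := (integrableOn_Ioi_comp_mul_left_iff (fun t => f t * (w t : ℂ)) 0 hs).2 (by
      rw [mul_zero]; exact h.1)
    exact h1
  · intro g hg ε hε
    have hH : InL1 w (fun t => g (t / s)) := by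
      have h1 := (integrableOn_Ioi_comp_mul_left_iff (fun t => g (t / s) * (w t : ℂ)) 0 hs).1 (by
        have h2 : (fun x => (fun t => g (t / s) * (w t : ℂ)) (s * x)) = fun t => g t * (w (s * t) : ℂ) := by
          funext x
          simp only
          rw [mul_div_cancel_left₀ x hs.ne']
        rw [h2]; exact hg)
      rw [mul_zero] at h1
      exact h1
    obtain ⟨n, c, hc⟩ := h.2 _ hH (s * ε) (mul_pos hs hε)
    refine ⟨n, fun k => c k * (s : ℂ) ^ k, ?_⟩
    have h3 : ∀ t, ENNReal.ofReal (‖g t - ∑ k ∈ Finset.range n, (c k * (s : ℂ) ^ k) *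
        cpow (fun t => f (s * t)) k t‖ * w (s * t)) =
        (fun t => ENNReal.ofReal (‖g (t / s) - ∑ k ∈ Finset.range n, c k * cpow f k t‖ * w t)) (s * t) := by
      intro t
      simp only
      rw [mul_div_cancel_left₀ t hs.ne']
      congr 4
      refine Finset.sum_congr rfl fun k _ => ?_
      rw [gs_cpow s hs f k t]
      have hsc : (s : ℂ) ≠ 0 := by exact_mod_cast hs.ne'
      have h4 : (s : ℂ) ^ k * ((s : ℂ)⁻¹) ^ k = 1 := by
        rw [← mul_pow, mul_inv_cancel₀ hsc, one_pow]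
      linear_combination (c k * cpow f k (s * t)) * h4
    have h5 : ∫⁻ t in Ioi (0:ℝ), ENNReal.ofReal (‖g t - ∑ k ∈ Finset.range n, (c k * (s : ℂ) ^ k) *
        cpow (fun t => f (s * t)) k t‖ * w (s * t)) =
        ENNReal.ofReal s⁻¹ * ∫⁻ t in Ioi (0:ℝ), ENNReal.ofReal (‖g (t / s) -
          ∑ k ∈ Finset.range n, c k * cpow f k t‖ * w t) := by
      rw [← gs_lint s hs]
      exact lintegral_congr (fun t => h3 t)
    show ∫⁻ t in Ioi (0:ℝ), ENNReal.ofReal (‖g t - ∑ k ∈ Finset.range n, (c k * (s : ℂ) ^ k) *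
        cpow (fun t => f (s * t)) k t‖ * w (s * t)) < ENNReal.ofReal ε
    rw [h5]
    have h6 : ENNReal.ofReal ε = ENNReal.ofReal s⁻¹ * ENNReal.ofReal (s * ε) := by
      rw [← ENNReal.ofReal_mul (inv_pos.2 hs).le, ← mul_assoc, inv_mul_cancel₀ hs.ne', one_mul]
    rw [h6]
    exact ENNReal.mul_lt_mul_right (by
      rw [Ne, ENNReal.ofReal_eq_zero, not_le]; exact inv_pos.2 hs) ENNReal.ofReal_ne_top hc

end Pool.Agent.Helper5.PG
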