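import Mathlib
import Pool.Agent.Helper5.Pf.Defs

set_option autoImplicit false
open MeasureTheory Set Filter Topology

namespace Pool.Agent.Helper5.PG

theorem ph_aux (v : ℝ) (hv : 0 < v) : v ^ (3 / 2 : ℝ) * Real.exp (-(v / 4)) ≤ 33 := by
  have h1 : v ^ (3 / 2 : ℝ) ≤ 1 + v ^ 2 := by
    rcases le_total v 1 with h | h
    · have h2 : v ^ (3 / 2 : ℝ) ≤ 1 := Real.rpow_le_one hv.le h (by norm_num)
      have := sq_nonneg v
      linarith
    · have h2 : v ^ (3 / 2 : ℝ) ≤ v ^ (2 : ℝ) := Real.rpow_le_rpow_of_exponent_le h (by norm_num)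
      rw [Real.rpow_two] at h2
      linarith
  have h2 := Real.quadratic_le_exp_of_nonneg (x := v / 4) (by positivity)
  have h3 : 1 + v ^ 2 ≤ 33 * Real.exp (v / 4) := by nlinarith [sq_nonneg v]
  rw [Real.exp_neg, ← div_eq_mul_inv, div_le_iff₀ (Real.exp_pos _)]
  linarith

theorem ph_ebd (n : ℕ) : ∃ C : ℝ, 0 ≤ C ∧ EBd C 0 (ph n) := by
  refine ⟨(n : ℝ) / (2 * Real.sqrt Real.pi) * 33, by positivity, ?_, ?_, ?_⟩
  · unfold ph
    refine Measurable.ite measurableSet_Ioi ?_ measurable_const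
    refine Complex.measurable_ofReal.comp ?_
    refine Measurable.mul (Measurable.mul measurable_const ?_) ?_
    · exact measurable_id.pow_const _
    · exact Real.measurable_exp.comp ((measurable_const.div (measurable_const.mul measurable_id)).neg)
  · intro t ht
    unfold ph
    rw [if_neg (not_lt.2 ht)]
  · intro t ht
    unfold ph
    rw [if_pos ht, Complex.norm_real, Real.norm_eq_abs, zero_mul, Real.exp_zero, mul_one,
      abs_of_nonneg (by positivity), mul_assoc]
    rcases Nat.eq_zero_or_pos n with h0 | h0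
    · subst h0; simp
    · refine mul_le_mul_of_nonneg_left ?_ (by positivity)
      have h1 : t ^ (-(3 / 2) : ℝ) = (t⁻¹) ^ (3 / 2 : ℝ) := by
        rw [Real.rpow_neg ht.le, Real.inv_rpow ht.le]
      have h2 : Real.exp (-((n : ℝ) ^ 2 / (4 * t))) ≤ Real.exp (-(t⁻¹ / 4)) := by
        apply Real.exp_le_exp.2
        have h3 : (1 : ℝ) ≤ (n : ℝ) ^ 2 := by
          have : (1 : ℝ) ≤ n := by exact_mod_cast h0
          nlinarith
        have h4 : t⁻¹ / 4 = 1 / (4 * t) := by field_simp
        rw [h4]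
        have h5 : 1 / (4 * t) ≤ (n : ℝ) ^ 2 / (4 * t) := div_le_div_of_nonneg_right h3 (by positivity)
        linarith
      have h3 := ph_aux t⁻¹ (inv_pos.2 ht)
      rw [h1]
      refine le_trans ?_ h3
      exact mul_le_mul_of_nonneg_left h2 (by positivity)

end Pool.Agent.Helper5.PG
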