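import Mathlib
import Pool.Agent.Helper5.Pf.Defs

set_option autoImplicit false
open MeasureTheory Set Filter Topology

namespace Pool.Agent.Helper5.PG

noncomputable def glG (s : ℝ) : ℝ := ∫ y in (0:ℝ)..s, Real.exp (-y ^ 2)

theorem glG_deriv (s : ℝ) : HasDerivAt glG (Real.exp (-s ^ 2)) s :=
  (Continuous.integral_hasStrictDerivAt (by fun_prop : Continuous fun y : ℝ => Real.exp (-y ^ 2))
    0 s).hasDerivAt

theorem glG_int : Integrable (fun y : ℝ => Real.exp (-y ^ 2)) := by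
  have h := integrable_exp_neg_mul_sq (b := 1) one_pos
  simpa using h

theorem glG_top : Tendsto glG atTop (𝓝 (Real.sqrt Real.pi / 2)) := by
  have h := intervalIntegral_tendsto_integral_Ioi (0 : ℝ) (glG_int.integrableOn) tendsto_id
  have h2 := integral_gaussian_Ioi 1
  have h3 : ∫ y in Ioi (0:ℝ), Real.exp (-y ^ 2) = Real.sqrt Real.pi / 2 := by
    simpa using h2
  rw [h3] at h
  exact h

theorem glG_neg (s : ℝ) : glG (-s) = - glG s := by
  unfold glG
  have h := intervalIntegral.integral_comp_neg (a := 0) (b := s) (fun y : ℝ => Real.exp (-y ^ 2))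
  have h2 : ∫ x in (0:ℝ)..s, Real.exp (-(-x) ^ 2) = ∫ x in (0:ℝ)..s, Real.exp (-x ^ 2) := by
    congr 1
    funext x
    rw [neg_sq]
  rw [h2] at h
  rw [h, neg_zero, intervalIntegral.integral_symm]

theorem glG_bot : Tendsto glG atBot (𝓝 (-(Real.sqrt Real.pi / 2))) := by
  have h := (glG_top.comp tendsto_neg_atBot_atTop).neg
  refine h.congr fun s => ?_
  show - glG (-s) = glG s
  rw [glG_neg, neg_neg]

noncomputable def gla (x l t : ℝ) : ℝ := x / (2 * Real.sqrt t) + Real.sqrt l * Real.sqrt t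
noncomputable def glb (x l t : ℝ) : ℝ := x / (2 * Real.sqrt t) - Real.sqrt l * Real.sqrt t

noncomputable def gl (x l t : ℝ) : ℝ :=
  -(2 / x) * (Real.exp (x * Real.sqrt l) * glG (gla x l t) +
    Real.exp (-(x * Real.sqrt l)) * glG (glb x l t))

theorem gl_a_deriv (x l t : ℝ) (ht : 0 < t) :
    HasDerivAt (gla x l) (-(x / (4 * Real.sqrt t ^ 3)) + Real.sqrt l / (2 * Real.sqrt t)) t := by
  have hr : 0 < Real.sqrt t := Real.sqrt_pos.2 ht
  have h1 := (Real.hasDerivAt_sqrt ht.ne').const_mul 2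
  have h2 := (hasDerivAt_const t x).fun_div h1 (by positivity)
  have h3 := (Real.hasDerivAt_sqrt ht.ne').const_mul (Real.sqrt l)
  refine (h2.fun_add h3).congr_deriv ?_
  field_simp
  ring

theorem gl_b_deriv (x l t : ℝ) (ht : 0 < t) :
    HasDerivAt (glb x l) (-(x / (4 * Real.sqrt t ^ 3)) - Real.sqrt l / (2 * Real.sqrt t)) t := by
  have hr : 0 < Real.sqrt t := Real.sqrt_pos.2 ht
  have h1 := (Real.hasDerivAt_sqrt ht.ne').const_mul 2
  have h2 := (hasDerivAt_const t x).fun_div h1 (by positivity)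
  have h3 := (Real.hasDerivAt_sqrt ht.ne').const_mul (Real.sqrt l)
  refine (h2.fun_sub h3).congr_deriv ?_
  field_simp
  ring

theorem gl_rpow (t : ℝ) (ht : 0 < t) : t ^ (-(3 / 2) : ℝ) = (Real.sqrt t ^ 3)⁻¹ := by
  rw [Real.rpow_neg ht.le, Real.sqrt_eq_rpow, ← Real.rpow_natCast, ← Real.rpow_mul ht.le]
  norm_num

theorem gl_deriv (x l t : ℝ) (hx : 0 < x) (hl : 0 < l) (ht : 0 < t) :
    HasDerivAt (gl x l) (t ^ (-(3 / 2) : ℝ) * Real.exp (-(x ^ 2 / (4 * t)) - l * t)) t := by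
  have hr : 0 < Real.sqrt t := Real.sqrt_pos.2 ht
  have hrt : Real.sqrt t ^ 2 = t := Real.sq_sqrt ht.le
  have hll : Real.sqrt l ^ 2 = l := Real.sq_sqrt hl.le
  have h1 := ((glG_deriv (gla x l t)).comp t (gl_a_deriv x l t ht)).const_mul
    (Real.exp (x * Real.sqrt l))
  have h2 := ((glG_deriv (glb x l t)).comp t (gl_b_deriv x l t ht)).const_mul
    (Real.exp (-(x * Real.sqrt l)))
  have h3 := (h1.fun_add h2).const_mul (-(2 / x))
  have ea : Real.exp (x * Real.sqrt l) * Real.exp (-(gla x l t) ^ 2) =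
      Real.exp (-(x ^ 2 / (4 * t)) - l * t) := by
    rw [← Real.exp_add]
    congr 1
    unfold gla
    have : (x / (2 * Real.sqrt t) + Real.sqrt l * Real.sqrt t) ^ 2 =
        x ^ 2 / (4 * Real.sqrt t ^ 2) + x * Real.sqrt l + Real.sqrt l ^ 2 * Real.sqrt t ^ 2 := by
      field_simp
      ring
    rw [this, hrt, hll]
    ring
  have eb : Real.exp (-(x * Real.sqrt l)) * Real.exp (-(glb x l t) ^ 2) =
      Real.exp (-(x ^ 2 / (4 * t)) - l * t) := by
    rw [← Real.exp_add]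
    congr 1
    unfold glb
    have : (x / (2 * Real.sqrt t) - Real.sqrt l * Real.sqrt t) ^ 2 =
        x ^ 2 / (4 * Real.sqrt t ^ 2) - x * Real.sqrt l + Real.sqrt l ^ 2 * Real.sqrt t ^ 2 := by
      field_simp
      ring
    rw [this, hrt, hll]
    ring
  refine h3.congr_deriv ?_
  rw [← mul_assoc, ← mul_assoc, ea, eb, gl_rpow t ht]
  have hx' := hx.ne'
  field_simp
  ring

theorem gl_zero (x l : ℝ) (hx : 0 < x) :
    Tendsto (gl x l) (𝓝[>] 0) (𝓝 (-(2 / x) * (Real.exp (x * Real.sqrt l) * (Real.sqrt Real.pi / 2) +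
      Real.exp (-(x * Real.sqrt l)) * (Real.sqrt Real.pi / 2)))) := by
  have hs : Tendsto Real.sqrt (𝓝[>] 0) (𝓝[>] 0) := by
    rw [tendsto_nhdsWithin_iff]
    constructor
    · have h := (Real.continuous_sqrt.tendsto 0).mono_left (nhdsWithin_le_nhds (s := Ioi 0))
      rw [Real.sqrt_zero] at h
      exact h
    · filter_upwards [self_mem_nhdsWithin] with t ht
      exact Real.sqrt_pos.2 ht
  have h1 : Tendsto (fun t => x / (2 * Real.sqrt t)) (𝓝[>] 0) atTop := by
    have h2 := (tendsto_inv_nhdsGT_zero.comp hs).const_mul_atTop (half_pos hx)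
    refine h2.congr fun t => ?_
    show x / 2 * (Real.sqrt t)⁻¹ = _
    rw [← div_eq_mul_inv, div_div]
  have h0 : Tendsto (fun t => Real.sqrt l * Real.sqrt t) (𝓝[>] 0) (𝓝 (Real.sqrt l * 0)) :=
    (hs.mono_right nhdsWithin_le_nhds).const_mul _
  have ha : Tendsto (gla x l) (𝓝[>] 0) atTop := h1.atTop_add h0
  have hb : Tendsto (glb x l) (𝓝[>] 0) atTop := h1.atTop_add h0.neg
  exact (((glG_top.comp ha).const_mul _).add ((glG_top.comp hb).const_mul _)).const_mul _

theorem gl_top (x l : ℝ) (hl : 0 < l) :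
    Tendsto (gl x l) atTop (𝓝 (-(2 / x) * (Real.exp (x * Real.sqrt l) * (Real.sqrt Real.pi / 2) +
      Real.exp (-(x * Real.sqrt l)) * (-(Real.sqrt Real.pi / 2))))) := by
  have hs : Tendsto Real.sqrt atTop atTop := Real.tendsto_sqrt_atTop
  have h1 : Tendsto (fun t => x / (2 * Real.sqrt t)) atTop (𝓝 0) :=
    tendsto_const_nhds.div_atTop (hs.const_mul_atTop two_pos)
  have h0 : Tendsto (fun t => Real.sqrt l * Real.sqrt t) atTop atTop :=
    hs.const_mul_atTop (Real.sqrt_pos.2 hl)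
  have ha : Tendsto (gla x l) atTop atTop := h1.add_atTop h0
  have hb : Tendsto (glb x l) atTop atBot := h1.add_atBot (tendsto_neg_atTop_atBot.comp h0)
  exact (((glG_top.comp ha).const_mul _).add ((glG_bot.comp hb).const_mul _)).const_mul _

theorem glasser_real (x l : ℝ) (hx : 0 < x) (hl : 0 < l) :
    IntegrableOn (fun t : ℝ => t ^ (-(3 / 2) : ℝ) * Real.exp (-(x ^ 2 / (4 * t)) - l * t)) (Ioi 0) ∧
    ∫ t in Ioi (0:ℝ), t ^ (-(3 / 2) : ℝ) * Real.exp (-(x ^ 2 / (4 * t)) - l * t) =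
      (2 * Real.sqrt Real.pi / x) * Real.exp (-(x * Real.sqrt l)) := by
  obtain ⟨g0, hg0⟩ : ∃ g0, g0 = -(2 / x) * (Real.exp (x * Real.sqrt l) * (Real.sqrt Real.pi / 2) +
      Real.exp (-(x * Real.sqrt l)) * (Real.sqrt Real.pi / 2)) := ⟨_, rfl⟩
  obtain ⟨g, hg⟩ : ∃ g : ℝ → ℝ, g = fun t => if t ≤ 0 then g0 else gl x l t := ⟨_, rfl⟩
  have hgpos : ∀ t : ℝ, 0 < t → g t = gl x l t := fun t ht => by
    rw [hg]
    exact if_neg (not_le.2 ht)
  have hgzero : g 0 = g0 := by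
    rw [hg]
    exact if_pos le_rfl
  have hcont : ContinuousWithinAt g (Ici 0) 0 := by
    rw [← continuousWithinAt_Ioi_iff_Ici]
    show Tendsto g (𝓝[>] 0) (𝓝 (g 0))
    rw [hgzero, hg0]
    refine (gl_zero x l hx).congr' ?_
    filter_upwards [self_mem_nhdsWithin] with t ht
    exact (hgpos t ht).symm
  have hderiv : ∀ t ∈ Ioi (0:ℝ), HasDerivAt g
      (t ^ (-(3 / 2) : ℝ) * Real.exp (-(x ^ 2 / (4 * t)) - l * t)) t := by
    intro t ht
    refine (gl_deriv x l t hx hl ht).congr_of_eventuallyEq ?_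
    filter_upwards [Ioi_mem_nhds ht] with s hs
    exact hgpos s hs
  have hnn : ∀ t ∈ Ioi (0:ℝ),
      0 ≤ t ^ (-(3 / 2) : ℝ) * Real.exp (-(x ^ 2 / (4 * t)) - l * t) := by
    intro t ht
    have : 0 ≤ t ^ (-(3 / 2) : ℝ) := Real.rpow_nonneg (le_of_lt ht) _
    positivity
  have htop : Tendsto g atTop
      (𝓝 (-(2 / x) * (Real.exp (x * Real.sqrt l) * (Real.sqrt Real.pi / 2) +
      Real.exp (-(x * Real.sqrt l)) * (-(Real.sqrt Real.pi / 2))))) := by
    refine (gl_top x l hl).congr' ?_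
    filter_upwards [eventually_gt_atTop 0] with t ht
    exact (hgpos t ht).symm
  refine ⟨integrableOn_Ioi_deriv_of_nonneg hcont hderiv hnn htop, ?_⟩
  rw [integral_Ioi_of_hasDerivAt_of_nonneg hcont hderiv hnn htop, hgzero, hg0]
  ring

end Pool.Agent.Helper5.PG
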