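import Mathlib
import Pool.Agent.Helper5.Pf.Defs
import Pool.Agent.Helper5.Pf.GlasserReal

set_option autoImplicit false
open MeasureTheory Set Filter Topology

namespace Pool.Agent.Helper5.PG

theorem gc_norm (x : ℂ) (l t : ℝ) (ht : 0 < t) :
    ‖((t ^ (-(3 / 2) : ℝ) : ℝ) : ℂ) * Complex.exp (-(x ^ 2 / (4 * t)) - l * t)‖ =
      t ^ (-(3 / 2) : ℝ) * Real.exp (-((x ^ 2).re / (4 * t)) - l * t) := by
  rw [norm_mul, Complex.norm_real, Real.norm_of_nonneg (Real.rpow_nonneg ht.le _),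
    Complex.norm_exp]
  congr 2
  have h1 : x ^ 2 / (4 * (t : ℂ)) = x ^ 2 / ((4 * t : ℝ) : ℂ) := by push_cast; ring
  rw [h1, Complex.sub_re, Complex.neg_re, Complex.div_ofReal_re]
  have h2 : ((l : ℂ) * (t : ℂ)).re = l * t := by
    rw [← Complex.ofReal_mul, Complex.ofReal_re]
  rw [h2]

theorem gc_meas (x : ℂ) (l : ℝ) : Measurable (fun t : ℝ => ((t ^ (-(3 / 2) : ℝ) : ℝ) : ℂ) *
      Complex.exp (-(x ^ 2 / (4 * t)) - l * t)) := by
  have h1 : Measurable (fun t : ℝ => ((t ^ (-(3 / 2) : ℝ) : ℝ) : ℂ)) :=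
    Complex.measurable_ofReal.comp (measurable_id.pow_const _)
  have h2 : Measurable (fun t : ℝ => (4 * (t : ℂ))) :=
    measurable_const.mul Complex.measurable_ofReal
  have h3 : Measurable (fun t : ℝ => -(x ^ 2 / (4 * (t : ℂ))) - l * (t : ℂ)) :=
    ((measurable_const.div h2).neg).sub (measurable_const.mul Complex.measurable_ofReal)
  exact h1.mul (Complex.measurable_exp.comp h3)

theorem gc_int (x : ℂ) (l : ℝ) (hx2 : 0 < (x ^ 2).re) (hl : 0 < l) :
    IntegrableOn (fun t : ℝ => ((t ^ (-(3 / 2) : ℝ) : ℝ) : ℂ) *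
      Complex.exp (-(x ^ 2 / (4 * t)) - l * t)) (Ioi 0) := by
  have h0 := (glasser_real (Real.sqrt (x ^ 2).re) l (Real.sqrt_pos.2 hx2) hl).1
  refine Integrable.mono' h0 (gc_meas x l).aestronglyMeasurable ?_
  refine (ae_restrict_iff' measurableSet_Ioi).2 (Eventually.of_forall fun t ht => ?_)
  rw [gc_norm x l t ht, Real.sq_sqrt hx2.le]

theorem gc_diff (l : ℝ) (hl : 0 < l) (x₀ : ℂ) (hx2 : 0 < (x₀ ^ 2).re) :
    DifferentiableAt ℂ (fun x : ℂ => ∫ t in Ioi (0:ℝ), ((t ^ (-(3 / 2) : ℝ) : ℝ) : ℂ) *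
      Complex.exp (-(x ^ 2 / (4 * t)) - l * t)) x₀ := by
  set c : ℝ := (x₀ ^ 2).re / 2 with hc
  have hc0 : 0 < c := by positivity
  set M : ℝ := ‖x₀‖ + 1 with hM
  have hM0 : 0 < M := by positivity
  have hs : {x : ℂ | c < (x ^ 2).re ∧ ‖x‖ < M} ∈ 𝓝 x₀ := by
    have ho : IsOpen {x : ℂ | c < (x ^ 2).re ∧ ‖x‖ < M} := by
      refine IsOpen.inter ?_ ?_
      · exact isOpen_lt continuous_const (Complex.continuous_re.comp (continuous_pow 2))
      · exact isOpen_lt continuous_norm continuous_const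
    refine ho.mem_nhds ⟨?_, ?_⟩
    · show c < (x₀ ^ 2).re
      linarith
    · show ‖x₀‖ < M
      linarith
  have hb := (glasser_real (Real.sqrt (c / 2)) l (Real.sqrt_pos.2 (by positivity)) hl).1
  have hb' := hb.const_mul ((M / 2) * (8 / c))
  have key := hasDerivAt_integral_of_dominated_loc_of_deriv_le
    (μ := volume.restrict (Ioi (0 : ℝ))) (x₀ := x₀)
    (F := fun (x : ℂ) (t : ℝ) => ((t ^ (-(3 / 2) : ℝ) : ℝ) : ℂ) *
      Complex.exp (-(x ^ 2 / (4 * t)) - l * t))
    (F' := fun (x : ℂ) (t : ℝ) => (((t ^ (-(3 / 2) : ℝ) : ℝ) : ℂ) *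
      Complex.exp (-(x ^ 2 / (4 * t)) - l * t)) * (-(x / (2 * t))))
    (bound := fun t : ℝ => ((M / 2) * (8 / c)) *
      (t ^ (-(3 / 2) : ℝ) * Real.exp (-(Real.sqrt (c / 2) ^ 2 / (4 * t)) - l * t)))
    hs (Eventually.of_forall fun x => (gc_meas x l).aestronglyMeasurable)
    (gc_int x₀ l hx2 hl)
    (by
      have h2 : Measurable (fun t : ℝ => -(x₀ / (2 * (t : ℂ)))) :=
        (measurable_const.div (measurable_const.mul Complex.measurable_ofReal)).neg
      exact ((gc_meas x₀ l).mul h2).aestronglyMeasurable)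
    (by
      refine (ae_restrict_iff' measurableSet_Ioi).2 (Eventually.of_forall fun t ht x hx => ?_)
      have ht0 : (0 : ℝ) < t := ht
      obtain ⟨hx1, hx3⟩ := hx
      rw [norm_mul, gc_norm x l t ht0, norm_neg, norm_div]
      have h4 : ‖(2 * (t : ℂ))‖ = 2 * t := by
        rw [norm_mul, Complex.norm_real, Real.norm_of_nonneg ht0.le]; norm_num
      rw [h4, Real.sq_sqrt (by positivity)]
      have hy : 0 < c / (8 * t) := by positivity
      have h5 : Real.exp (-(c / (8 * t))) ≤ 8 * t / c := by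
        have h6 : c / (8 * t) ≤ Real.exp (c / (8 * t)) := by
          have := Real.add_one_le_exp (c / (8 * t)); linarith
        rw [Real.exp_neg]
        rw [show 8 * t / c = (c / (8 * t))⁻¹ by rw [inv_div]]
        exact inv_anti₀ hy h6
      have h7 : Real.exp (-((x ^ 2).re / (4 * t)) - l * t) ≤
          Real.exp (-(c / 2 / (4 * t)) - l * t) * (8 * t / c) := by
        have h8 : -((x ^ 2).re / (4 * t)) - l * t ≤
            (-(c / 2 / (4 * t)) - l * t) + (-(c / (8 * t))) := by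
          have h9 : c / (4 * t) ≤ (x ^ 2).re / (4 * t) := by
            have : c < (x ^ 2).re := hx1
            gcongr
          have h10 : c / (4 * t) = c / 2 / (4 * t) + c / (8 * t) := by
            field_simp
            ring
          linarith
        calc Real.exp (-((x ^ 2).re / (4 * t)) - l * t)
            ≤ Real.exp ((-(c / 2 / (4 * t)) - l * t) + (-(c / (8 * t)))) := Real.exp_le_exp.2 h8
          _ = Real.exp (-(c / 2 / (4 * t)) - l * t) * Real.exp (-(c / (8 * t))) := Real.exp_add _ _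
          _ ≤ _ := mul_le_mul_of_nonneg_left h5 (Real.exp_pos _).le
      have h11 : ‖x‖ / (2 * t) ≤ M / (2 * t) := by
        have : ‖x‖ < M := hx3
        gcongr
      have hrp : 0 ≤ t ^ (-(3 / 2) : ℝ) := Real.rpow_nonneg ht0.le _
      calc t ^ (-(3 / 2) : ℝ) * Real.exp (-((x ^ 2).re / (4 * t)) - l * t) * (‖x‖ / (2 * t))
          ≤ t ^ (-(3 / 2) : ℝ) * (Real.exp (-(c / 2 / (4 * t)) - l * t) * (8 * t / c)) *
            (M / (2 * t)) := by
            refine mul_le_mul (mul_le_mul_of_nonneg_left h7 hrp) h11 (by positivity) ?_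
            positivity
        _ = M / 2 * (8 / c) * (t ^ (-(3 / 2) : ℝ) * Real.exp (-(c / 2 / (4 * t)) - l * t)) := by
            field_simp)
    hb'
    (by
      refine (ae_restrict_iff' measurableSet_Ioi).2 (Eventually.of_forall fun t ht x hx => ?_)
      have ht0 : (t : ℂ) ≠ 0 := by
        have : (0 : ℝ) < t := ht
        exact_mod_cast this.ne'
      have h2 : HasDerivAt (fun x : ℂ => -(x ^ 2 / (4 * (t : ℂ))) - l * (t : ℂ))
          (-(((2 : ℕ) : ℂ) * x ^ (2 - 1) / (4 * (t : ℂ)))) x :=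
        (((hasDerivAt_pow 2 x).div_const (4 * (t : ℂ))).neg).sub_const (l * (t : ℂ))
      have e : -(((2 : ℕ) : ℂ) * x ^ (2 - 1) / (4 * (t : ℂ))) = -(x / (2 * t)) := by
        rw [show (2 - 1 : ℕ) = 1 from rfl, pow_one, neg_inj, div_eq_div_iff (by simpa using ht0)
          (by simpa using ht0)]
        push_cast
        ring
      rw [e] at h2
      have h3 := (h2.cexp).const_mul (((t ^ (-(3 / 2) : ℝ) : ℝ) : ℂ))
      rw [← mul_assoc] at h3
      exact h3)
  exact key.2.differentiableAt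



theorem glasser_cplx (x : ℂ) (l : ℝ) (hx : 0 < x.re) (hx2 : 0 < (x ^ 2).re) (hl : 0 < l) :
    IntegrableOn (fun t : ℝ => ((t ^ (-(3 / 2) : ℝ) : ℝ) : ℂ) *
      Complex.exp (-(x ^ 2 / (4 * t)) - l * t)) (Ioi 0) ∧
    ∫ t in Ioi (0:ℝ), ((t ^ (-(3 / 2) : ℝ) : ℝ) : ℂ) * Complex.exp (-(x ^ 2 / (4 * t)) - l * t) =
      (2 * Real.sqrt Real.pi / x) * Complex.exp (-(x * Real.sqrt l)) := by
  refine ⟨gc_int x l hx2 hl, ?_⟩
  set U : Set ℂ := {x : ℂ | x.im < x.re ∧ -x.im < x.re} with hU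
  have hUo : IsOpen U := by
    refine IsOpen.inter ?_ ?_
    · exact isOpen_lt Complex.continuous_im Complex.continuous_re
    · exact isOpen_lt Complex.continuous_im.neg Complex.continuous_re
  have hUc : Convex ℝ U := by
    intro a ha b hb p q hp hq hpq
    obtain ⟨ha1, ha2⟩ := ha
    obtain ⟨hb1, hb2⟩ := hb
    have hre : (p • a + q • b).re = p * a.re + q * b.re := by simp
    have him : (p • a + q • b).im = p * a.im + q * b.im := by simp
    have hpq' : 0 < p ∨ 0 < q := by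
      by_contra h
      push Not at h
      linarith [h.1, h.2]
    constructor
    · rw [hre, him]
      rcases hpq' with h | h
      · nlinarith [mul_pos h (sub_pos.2 ha1), mul_nonneg hq (sub_pos.2 hb1).le]
      · nlinarith [mul_nonneg hp (sub_pos.2 ha1).le, mul_pos h (sub_pos.2 hb1)]
    · rw [hre, him]
      rcases hpq' with h | h
      · nlinarith [mul_pos h (sub_pos.2 ha2), mul_nonneg hq (sub_pos.2 hb2).le]
      · nlinarith [mul_nonneg hp (sub_pos.2 ha2).le, mul_pos h (sub_pos.2 hb2)]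
  have hUsq : ∀ z ∈ U, 0 < (z ^ 2).re := by
    rintro z ⟨h1, h2⟩
    have : (z ^ 2).re = z.re * z.re - z.im * z.im := by rw [pow_two, Complex.mul_re]
    rw [this]
    nlinarith [mul_pos (sub_pos.2 h1) (sub_pos.2 h2)]
  have hUre : ∀ z ∈ U, 0 < z.re := by
    rintro z ⟨h1, h2⟩
    linarith
  have hf : AnalyticOnNhd ℂ (fun x : ℂ => ∫ t in Ioi (0:ℝ), ((t ^ (-(3 / 2) : ℝ) : ℝ) : ℂ) *
      Complex.exp (-(x ^ 2 / (4 * t)) - l * t)) U :=
    DifferentiableOn.analyticOnNhd
      (fun z hz => (gc_diff l hl z (hUsq z hz)).differentiableWithinAt) hUo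
  have hg : AnalyticOnNhd ℂ (fun x : ℂ =>
      (2 * Real.sqrt Real.pi / x) * Complex.exp (-(x * Real.sqrt l))) U := by
    refine DifferentiableOn.analyticOnNhd (fun z hz => ?_) hUo
    have hz0 : z ≠ 0 := by
      rintro rfl
      have := hUre 0 hz
      simp at this
    refine DifferentiableAt.differentiableWithinAt ?_
    refine DifferentiableAt.mul (DifferentiableAt.div (differentiableAt_const _)
      differentiableAt_id hz0) ?_
    exact ((differentiableAt_id.mul (differentiableAt_const _)).neg).cexp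
  have h1U : (1 : ℂ) ∈ U := by
    constructor <;> simp
  have hreal : ∀ y : ℝ, 0 < y → (∫ t in Ioi (0:ℝ), ((t ^ (-(3 / 2) : ℝ) : ℝ) : ℂ) *
      Complex.exp (-((y : ℂ) ^ 2 / (4 * t)) - l * t)) =
      (2 * Real.sqrt Real.pi / (y : ℂ)) * Complex.exp (-((y : ℂ) * Real.sqrt l)) := by
    intro y hy
    have h := (glasser_real y l hy hl).2
    have h2 := congrArg (fun r : ℝ => (r : ℂ)) h
    rw [← integral_complex_ofReal] at h2
    push_cast at h2 ⊢
    exact h2
  have hfreq : ∃ᶠ z in 𝓝[≠] (1 : ℂ), (fun x : ℂ => ∫ t in Ioi (0:ℝ),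
      ((t ^ (-(3 / 2) : ℝ) : ℝ) : ℂ) * Complex.exp (-(x ^ 2 / (4 * t)) - l * t)) z =
      (fun x : ℂ => (2 * Real.sqrt Real.pi / x) * Complex.exp (-(x * Real.sqrt l))) z := by
    have ht : Tendsto (fun y : ℝ => (y : ℂ)) (𝓝[≠] (1 : ℝ)) (𝓝[≠] (1 : ℂ)) := by
      refine tendsto_nhdsWithin_of_tendsto_nhds_of_eventually_within _ ?_ ?_
      · have := Complex.continuous_ofReal.tendsto (1 : ℝ)
        simp only [Complex.ofReal_one] at this
        exact this.mono_left nhdsWithin_le_nhds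
      · filter_upwards [self_mem_nhdsWithin] with y hy
        intro h
        apply hy
        have : (y : ℂ) = ((1 : ℝ) : ℂ) := by simpa using h
        exact_mod_cast this
    have he : ∀ᶠ y in 𝓝[≠] (1 : ℝ), (0 : ℝ) < y :=
      nhdsWithin_le_nhds (lt_mem_nhds one_pos)
    exact ht.frequently (he.mono fun y hy => hreal y hy).frequently
  have hxU : x ∈ U := by
    have h3 : (x ^ 2).re = x.re * x.re - x.im * x.im := by rw [pow_two, Complex.mul_re]
    rw [h3] at hx2
    constructor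
    · show x.im < x.re
      nlinarith
    · show -x.im < x.re
      nlinarith
  exact hf.eqOn_of_preconnected_of_frequently_eq hg hUc.isPreconnected h1U hfreq hxU

end Pool.Agent.Helper5.PG
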