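import Mathlib
import Pool.Agent.Helper5.Pf.Defs
import Pool.Agent.Helper5.Pf.GlasserCplx

set_option autoImplicit false
open MeasureTheory Set Filter Topology

namespace Pool.Agent.Helper5.PG

noncomputable def x1 : ℂ := 7 - 2 * Real.pi * Complex.I
noncomputable def x2 : ℂ := 7 + 2 * Real.pi * Complex.I

theorem x1_re : x1.re = 7 := by simp [x1]
theorem x2_re : x2.re = 7 := by simp [x2]
theorem x1_im : x1.im = -(2 * Real.pi) := by simp [x1]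
theorem x2_im : x2.im = 2 * Real.pi := by simp [x2]
theorem x1_sq : (x1 ^ 2).re = 49 - 4 * Real.pi ^ 2 := by
  rw [pow_two, Complex.mul_re, x1_re, x1_im]; ring
theorem x2_sq : (x2 ^ 2).re = 49 - 4 * Real.pi ^ 2 := by
  rw [pow_two, Complex.mul_re, x2_re, x2_im]; ring
theorem R_pos : 0 < 49 - 4 * Real.pi ^ 2 := by
  have h1 := Real.pi_lt_d2
  have h2 := Real.pi_pos
  nlinarith
theorem x1_ne : x1 ≠ 0 := by
  intro h; have := x1_re; rw [h] at this; simp at this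
theorem x2_ne : x2 ≠ 0 := by
  intro h; have := x2_re; rw [h] at this; simp at this

noncomputable def Bf (u : ℝ) : ℂ :=
  x1 * Complex.exp (-(x1 ^ 2 / (4 * u))) - x2 * Complex.exp (-(x2 ^ 2 / (4 * u)))

noncomputable def Psi (u : ℝ) : ℂ := ((u ^ (-(3 / 2) : ℝ) : ℝ) : ℂ) * Bf u

noncomputable def Phi (t : ℝ) : ℂ :=
  if t ∈ Ioo (0:ℝ) 1 then ((t ^ (-(1 / 2) : ℝ) : ℝ) : ℂ) * Psi (t⁻¹ - 1) else 0

theorem int_Psi (m : ℕ) (hm : 1 ≤ m) :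
    ∫ u in Ioi (0:ℝ), Psi u * Complex.exp (-(((m:ℝ) ^ 2 / 4 : ℝ) : ℂ) * u) = 0 := by
  have hl : 0 < (m:ℝ) ^ 2 / 4 := by positivity
  obtain ⟨i1, e1⟩ := glasser_cplx x1 ((m:ℝ) ^ 2 / 4) (by rw [x1_re]; norm_num) (by rw [x1_sq]; exact R_pos) hl
  obtain ⟨i2, e2⟩ := glasser_cplx x2 ((m:ℝ) ^ 2 / 4) (by rw [x2_re]; norm_num) (by rw [x2_sq]; exact R_pos) hl
  have hs : Real.sqrt ((m:ℝ) ^ 2 / 4) = (m:ℝ) / 2 := by
    rw [show (m:ℝ) ^ 2 / 4 = ((m:ℝ) / 2) ^ 2 by ring]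
    exact Real.sqrt_sq (by positivity)
  rw [hs] at e1 e2
  calc ∫ u in Ioi (0:ℝ), Psi u * Complex.exp (-(((m:ℝ) ^ 2 / 4 : ℝ) : ℂ) * u)
      = ∫ u in Ioi (0:ℝ), (x1 * (((u ^ (-(3 / 2) : ℝ) : ℝ) : ℂ) * Complex.exp (-(x1 ^ 2 / (4 * u)) - (((m:ℝ) ^ 2 / 4 : ℝ) : ℂ) * u))
        - x2 * (((u ^ (-(3 / 2) : ℝ) : ℝ) : ℂ) * Complex.exp (-(x2 ^ 2 / (4 * u)) - (((m:ℝ) ^ 2 / 4 : ℝ) : ℂ) * u))) := by
        congr 1
        funext u
        simp only [Psi, Bf, sub_eq_add_neg (-(x1 ^ 2 / (4 * (u:ℂ)))), sub_eq_add_neg (-(x2 ^ 2 / (4 * (u:ℂ)))), Complex.exp_add, neg_mul]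
        ring
    _ = x1 * ((2 * Real.sqrt Real.pi / x1) * Complex.exp (-(x1 * ((m:ℝ) / 2 : ℝ)))) -
        x2 * ((2 * Real.sqrt Real.pi / x2) * Complex.exp (-(x2 * ((m:ℝ) / 2 : ℝ)))) := by
        rw [integral_sub (i1.const_mul x1) (i2.const_mul x2), integral_const_mul, integral_const_mul, e1, e2]
    _ = 0 := by
        have he : Complex.exp (-(x1 * ((m:ℝ) / 2 : ℝ))) = Complex.exp (-(x2 * ((m:ℝ) / 2 : ℝ))) := by
          rw [Complex.exp_eq_exp_iff_exists_int]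
          refine ⟨m, ?_⟩
          simp only [x1, x2]
          push_cast
          ring
        rw [he]
        have h1 := x1_ne
        have h2 := x2_ne
        field_simp
        ring

theorem Phi_eq {t : ℝ} (ht : t ∈ Ioo (0:ℝ) 1) :
    Phi t = ((t * (1 - t) ^ (-(3 / 2) : ℝ) : ℝ) : ℂ) * Bf (t⁻¹ - 1) := by
  have h0 := ht.1
  have h1 := ht.2
  rw [Phi, if_pos ht, Psi, ← mul_assoc, ← Complex.ofReal_mul]
  congr 2
  have e : t⁻¹ - 1 = (1 - t) * t⁻¹ := by field_simp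
  rw [e, Real.mul_rpow (by linarith) (by positivity), Real.inv_rpow h0.le, Real.rpow_neg h0.le (3/2), inv_inv]
  have e2 : t ^ (-(1 / 2) : ℝ) * t ^ ((3 / 2) : ℝ) = t := by
    rw [← Real.rpow_add h0]; norm_num
  calc t ^ (-(1 / 2) : ℝ) * ((1 - t) ^ (-(3 / 2) : ℝ) * t ^ ((3 / 2) : ℝ))
      = (t ^ (-(1 / 2) : ℝ) * t ^ ((3 / 2) : ℝ)) * (1 - t) ^ (-(3 / 2) : ℝ) := by ring
    _ = _ := by rw [e2]

theorem norm_exp_x (x : ℂ) (u : ℝ) : ‖Complex.exp (-(x ^ 2 / (4 * u)))‖ = Real.exp (-((x ^ 2).re / (4 * u))) := by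
  rw [Complex.norm_exp]
  congr 1
  rw [Complex.neg_re, show (4 * (u:ℂ)) = ((4 * u : ℝ) : ℂ) by push_cast; ring, Complex.div_ofReal_re]

theorem Bf_bd (u : ℝ) : ‖Bf u‖ ≤ (‖x1‖ + ‖x2‖) * Real.exp (-((49 - 4 * Real.pi ^ 2) / (4 * u))) := by
  unfold Bf
  calc _ ≤ ‖x1 * Complex.exp (-(x1 ^ 2 / (4 * u)))‖ + ‖x2 * Complex.exp (-(x2 ^ 2 / (4 * u)))‖ := norm_sub_le _ _
    _ = _ := by rw [norm_mul, norm_mul, norm_exp_x, norm_exp_x, x1_sq, x2_sq]; ring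

theorem exp_bd {c s : ℝ} (hc : 0 < c) (hs : 0 < s) : s ^ (-(2:ℝ)) * Real.exp (-(c / s)) ≤ 2 / c ^ 2 := by
  have h1 := Real.quadratic_le_exp_of_nonneg (show 0 ≤ c / s by positivity)
  have h2 : (c / s) ^ 2 / 2 ≤ Real.exp (c / s) := by
    have : 0 ≤ c / s := by positivity
    nlinarith
  rw [Real.exp_neg, Real.rpow_neg hs.le]
  have e : s ^ (2:ℝ) = s ^ 2 := by
    rw [show (2:ℝ) = ((2:ℕ):ℝ) by norm_num, Real.rpow_natCast]
  rw [e, ← mul_inv, inv_le_comm₀ (by positivity) (by positivity), inv_div]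
  calc c ^ 2 / 2 = s ^ 2 * ((c / s) ^ 2 / 2) := by field_simp
    _ ≤ s ^ 2 * Real.exp (c / s) := by gcongr

theorem Phi_bd : ∃ C : ℝ, ∀ t, ‖Phi t‖ ≤ C := by
  set c : ℝ := (49 - 4 * Real.pi ^ 2) / 4 with hc
  have hcp : 0 < c := by have := R_pos; positivity
  refine ⟨(‖x1‖ + ‖x2‖) * (Real.exp c * (2 / c ^ 2)), fun t => ?_⟩
  by_cases ht : t ∈ Ioo (0:ℝ) 1
  · have h0 := ht.1
    have h1 := ht.2
    have hs : 0 < 1 - t := by linarith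
    rw [Phi_eq ht, norm_mul, Complex.norm_real, Real.norm_of_nonneg (by positivity)]
    have e : -((49 - 4 * Real.pi ^ 2) / (4 * (t⁻¹ - 1))) = c + -(c / (1 - t)) := by
      have : t⁻¹ - 1 = (1 - t) / t := by field_simp
      rw [this, hc]
      field_simp
      ring
    have hb := Bf_bd (t⁻¹ - 1)
    rw [e, Real.exp_add] at hb
    have hr : (1 - t) ^ (-(3 / 2) : ℝ) ≤ (1 - t) ^ (-(2:ℝ)) :=
      Real.rpow_le_rpow_of_exponent_ge hs (by linarith) (by norm_num)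
    calc t * (1 - t) ^ (-(3 / 2) : ℝ) * ‖Bf (t⁻¹ - 1)‖
        ≤ 1 * (1 - t) ^ (-(2:ℝ)) * ((‖x1‖ + ‖x2‖) * (Real.exp c * Real.exp (-(c / (1 - t))))) := by
          gcongr
      _ = (‖x1‖ + ‖x2‖) * (Real.exp c * ((1 - t) ^ (-(2:ℝ)) * Real.exp (-(c / (1 - t))))) := by ring
      _ ≤ _ := by
          gcongr
          exact exp_bd hcp hs
  · rw [Phi, if_neg ht, norm_zero]
    positivity

theorem Phi_meas : Measurable Phi := by
  unfold Phi Psi Bf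
  apply Measurable.ite measurableSet_Ioo
  · fun_prop
  · exact measurable_const

theorem Phi_ne : ∃ δ : ℝ, 0 < δ ∧ ∀ t : ℝ, 0 < t → t < δ → Phi t ≠ 0 := by
  let D : ℝ → ℂ := fun t => x1 * Complex.exp (-(x1 ^ 2 * (t / (4 * (1 - t)) : ℝ))) -
    x2 * Complex.exp (-(x2 ^ 2 * (t / (4 * (1 - t)) : ℝ)))
  have hD : ContinuousAt D 0 := by
    have hq : ContinuousAt (fun t : ℝ => t / (4 * (1 - t))) 0 := by
      apply ContinuousAt.div (by fun_prop) (by fun_prop) (by norm_num)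
    have hq' : ContinuousAt (fun t : ℝ => ((t / (4 * (1 - t)) : ℝ) : ℂ)) 0 :=
      Complex.continuous_ofReal.continuousAt.comp hq
    apply ContinuousAt.sub
    · exact continuousAt_const.mul ((continuousAt_const.mul hq').neg.cexp)
    · exact continuousAt_const.mul ((continuousAt_const.mul hq').neg.cexp)
  have hD0 : D 0 ≠ 0 := by
    simp only [D, x1, x2]
    simp only [zero_div, Complex.ofReal_zero, mul_zero, neg_zero, Complex.exp_zero, mul_one]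
    intro h
    have := congrArg Complex.im h
    simp at this
    have hp := Real.pi_pos
    linarith
  have hev := hD.eventually_ne hD0
  rw [Metric.eventually_nhds_iff] at hev
  obtain ⟨δ, hδ, h⟩ := hev
  refine ⟨min δ 1, lt_min hδ one_pos, fun t h0 h1 => ?_⟩
  have ht : t ∈ Ioo (0:ℝ) 1 := ⟨h0, h1.trans_le (min_le_right _ _)⟩
  have hs : 0 < 1 - t := by linarith [ht.2]
  rw [Phi_eq ht]
  apply mul_ne_zero
  · rw [Complex.ofReal_ne_zero]; positivity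
  · have hh := h (y := t) (by rw [Real.dist_eq, sub_zero, abs_of_pos h0]; exact h1.trans_le (min_le_left _ _))
    have e : ∀ x : ℂ, x ^ 2 / (4 * ((t⁻¹ - 1 : ℝ) : ℂ)) = x ^ 2 * ((t / (4 * (1 - t)) : ℝ) : ℂ) := by
      intro x
      have e1 : (4 * ((t⁻¹ - 1 : ℝ) : ℂ)) = (((4 * (1 - t)) / t : ℝ) : ℂ) := by
        rw [show (4 * (1 - t)) / t = 4 * (t⁻¹ - 1) by field_simp]
        push_cast
        ring
      rw [e1, div_eq_mul_inv, ← Complex.ofReal_inv, inv_div]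
    unfold Bf
    rw [e x1, e x2]
    exact hh

theorem image_Ioo : (fun t : ℝ => t⁻¹ - 1) '' Ioo 0 1 = Ioi 0 := by
  ext u
  constructor
  · rintro ⟨t, ht, rfl⟩
    have := (one_lt_inv₀ ht.1).2 ht.2
    simp only [mem_Ioi]
    linarith
  · intro hu
    have hu' : 0 < u := hu
    refine ⟨(1 + u)⁻¹, ⟨by positivity, inv_lt_one_of_one_lt₀ (by linarith)⟩, ?_⟩
    simp

theorem Phi_int (m : ℕ) (hm : 1 ≤ m) : ∫ t in Ioi (0:ℝ), Phi t * ph m t = 0 := by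
  have hA : ∫ t in Ioi (0:ℝ), Phi t * ph m t = ∫ t in Ioo (0:ℝ) 1, Phi t * ph m t := by
    apply setIntegral_eq_of_subset_of_forall_sdiff_eq_zero measurableSet_Ioi Ioo_subset_Ioi_self
    intro t ht
    rw [Phi, if_neg ht.2, zero_mul]
  have hB := integral_image_eq_integral_abs_deriv_smul (s := Ioo (0:ℝ) 1) (f := fun t : ℝ => t⁻¹ - 1)
    (f' := fun t : ℝ => -(t ^ 2)⁻¹) measurableSet_Ioo
    (fun t ht => ((hasDerivAt_inv ht.1.ne').sub_const 1).hasDerivWithinAt)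
    (fun a _ b _ h => by
      have : a⁻¹ = b⁻¹ := by
        have h' : a⁻¹ - 1 = b⁻¹ - 1 := h
        linarith
      exact inv_injective this)
    (fun u : ℝ => Psi u * Complex.exp (-(((m:ℝ) ^ 2 / 4 : ℝ) : ℂ) * u))
  rw [image_Ioo, int_Psi m hm] at hB
  rw [hA]
  have hC : ∫ t in Ioo (0:ℝ) 1, Phi t * ph m t = ∫ t in Ioo (0:ℝ) 1,
      (((m : ℝ) / (2 * Real.sqrt Real.pi) * Real.exp (-((m:ℝ) ^ 2 / 4)) : ℝ) : ℂ) *
      (|-(t ^ 2)⁻¹| • (Psi (t⁻¹ - 1) * Complex.exp (-(((m:ℝ) ^ 2 / 4 : ℝ) : ℂ) * ((t⁻¹ - 1 : ℝ) : ℂ)))) := by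
    apply setIntegral_congr_fun measurableSet_Ioo
    intro t ht
    have h0 := ht.1
    beta_reduce
    rw [Phi, if_pos ht, ph, if_pos h0, abs_neg, abs_of_pos (by positivity), Complex.real_smul]
    have e1 : (t ^ 2)⁻¹ = t ^ (-(1 / 2) : ℝ) * t ^ (-(3 / 2) : ℝ) := by
      rw [← Real.rpow_add h0, show (-(1/2) + -(3/2) : ℝ) = -((2:ℕ):ℝ) by norm_num, Real.rpow_neg h0.le,
        Real.rpow_natCast]
    have e2 : Real.exp (-((m:ℝ) ^ 2 / (4 * t))) = Real.exp (-((m:ℝ) ^ 2 / 4)) *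
        Real.exp (-((m:ℝ) ^ 2 / 4) * (t⁻¹ - 1)) := by
      rw [← Real.exp_add]
      congr 1
      field_simp
      ring
    have e3 : Complex.exp (-(((m:ℝ) ^ 2 / 4 : ℝ) : ℂ) * ((t⁻¹ - 1 : ℝ) : ℂ)) =
        ((Real.exp (-((m:ℝ) ^ 2 / 4) * (t⁻¹ - 1)) : ℝ) : ℂ) := by
      rw [Complex.ofReal_exp]
      push_cast
      rfl
    rw [e1, e2, e3]
    push_cast
    ring
  rw [hC, integral_const_mul, ← hB, mul_zero]



theorem flat_fun : ∃ Φ : ℝ → ℂ, Measurable Φ ∧ (∃ C : ℝ, ∀ t, ‖Φ t‖ ≤ C) ∧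
    (∀ t : ℝ, 1 ≤ t → Φ t = 0) ∧ (∃ δ : ℝ, 0 < δ ∧ ∀ t : ℝ, 0 < t → t < δ → Φ t ≠ 0) ∧
    ∀ n : ℕ, ∫ t in Ioi (0:ℝ), Φ t * ph (n + 1) t = 0 := by
  refine ⟨Phi, Phi_meas, Phi_bd, ?_, Phi_ne, fun n => Phi_int (n + 1) (by omega)⟩
  intro t ht
  rw [Phi, if_neg]
  intro h
  exact absurd h.2 (not_lt.2 ht)

end Pool.Agent.Helper5.PG
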