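import Mathlib
import Pool.Agent.Helper5.Pf.Defs
import Pool.Agent.Helper5.Pt.LapInj
import Pool.Agent.Helper5.Pt.LapIter

set_option autoImplicit false
open MeasureTheory Set Filter Topology

namespace Pool.Agent.Helper5.PG

theorem lap_inj_real (C m D m' M : ℝ) (f g : ℝ → ℂ) (hf : EBd C m f) (hg : EBd D m' g)
    (h : ∀ r : ℝ, M ≤ r → lap f r = lap g r) : f =ᵐ[volume] g := by
  obtain ⟨U, hU⟩ : ∃ U : Set ℂ, U = {z : ℂ | max m m' < z.re} := ⟨_, rfl⟩
  have hUo : IsOpen U := by
    rw [hU]
    exact isOpen_lt continuous_const Complex.continuous_re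
  have hUc : IsPreconnected U := by
    rw [hU]
    exact (convex_halfSpace_re_gt _).isPreconnected
  have hfd : DifferentiableOn ℂ (lap f) U := by
    apply (lap_iter C m f hf).1.mono
    intro z hz
    rw [hU] at hz
    have hz' : max m m' < z.re := hz
    exact lt_of_le_of_lt (le_max_left m m') hz'
  have hgd : DifferentiableOn ℂ (lap g) U := by
    apply (lap_iter D m' g hg).1.mono
    intro z hz
    rw [hU] at hz
    have hz' : max m m' < z.re := hz
    exact lt_of_le_of_lt (le_max_right m m') hz'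
  obtain ⟨r0, hr0⟩ : ∃ r0 : ℝ, r0 = max (max m m') M + 1 := ⟨_, rfl⟩
  have hr1 : max m m' < r0 := by
    rw [hr0]
    have := le_max_left (max m m') M
    linarith
  have hr2 : M ≤ r0 := by
    rw [hr0]
    have := le_max_right (max m m') M
    linarith
  have hz0 : (r0 : ℂ) ∈ U := by
    rw [hU]
    show max m m' < (r0 : ℂ).re
    rw [Complex.ofReal_re]
    exact hr1
  have htend : Tendsto (fun t : ℝ => ((r0 + t : ℝ) : ℂ)) (𝓝[>] 0) (𝓝[≠] (r0 : ℂ)) := by
    rw [tendsto_nhdsWithin_iff]
    constructor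
    · have h1 : Tendsto (fun t : ℝ => ((r0 + t : ℝ) : ℂ)) (𝓝 0) (𝓝 ((r0 + 0 : ℝ) : ℂ)) := by
        apply Continuous.tendsto
        fun_prop
      rw [add_zero] at h1
      exact h1.mono_left nhdsWithin_le_nhds
    · filter_upwards [self_mem_nhdsWithin] with t ht
      intro h1
      have h1' : ((r0 + t : ℝ) : ℂ) = (r0 : ℂ) := h1
      have h2 : r0 + t = r0 := Complex.ofReal_injective h1'
      have h3 : (0:ℝ) < t := ht
      linarith
  have hfreq : ∃ᶠ z in 𝓝[≠] (r0 : ℂ), lap f z = lap g z := by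
    apply htend.frequently
    apply Filter.Eventually.frequently
    filter_upwards [self_mem_nhdsWithin] with t ht
    apply h
    have h3 : (0:ℝ) < t := ht
    linarith
  have heq := (hfd.analyticOnNhd hUo).eqOn_of_preconnected_of_frequently_eq
    (hgd.analyticOnNhd hUo) hUc hz0 hfreq
  apply lap_inj C m D m' (max m m' + 1) f g hf hg
  intro z hz
  apply heq
  rw [hU]
  show max m m' < z.re
  linarith

end Pool.Agent.Helper5.PG
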