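import Mathlib
import Pool.Agent.Helper5.Pf.Defs
import Pool.Agent.Helper5.Pf.GlasserReal
import Pool.Agent.Helper5.Pf.LapInjReal
import Pool.Agent.Helper5.Pe.LapCv
import Pool.Agent.Helper5.Pe.CvEbd
import Pool.Agent.Helper5.Pf.PhEbd

set_option autoImplicit false
open MeasureTheory Set Filter Topology

namespace Pool.Agent.Helper5.PG

theorem ebd_mono' {C C' m : ℝ} {f : ℝ → ℂ} (h : EBd C m f) (hC : C ≤ C') : EBd C' m f := by
  refine ⟨h.meas, h.zero, fun t ht => (h.bd t ht).trans ?_⟩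
  gcongr

theorem lap_ph' (n : ℕ) (hn : 1 ≤ n) (r : ℝ) (hr : 0 < r) :
    lap (ph n) r = ((Real.exp (-((n:ℝ) * Real.sqrt r)) : ℝ) : ℂ) := by
  have hn0 : (0:ℝ) < n := by exact_mod_cast hn
  have h1 := (glasser_real n r hn0 hr).2
  have h2 : lap (ph n) r = ∫ s in Ioi (0:ℝ), (((n : ℝ) / (2 * Real.sqrt Real.pi) *
      (s ^ (-(3 / 2) : ℝ) * Real.exp (-((n:ℝ) ^ 2 / (4 * s)) - r * s)) : ℝ) : ℂ) := by
    unfold lap
    apply setIntegral_congr_fun measurableSet_Ioi
    intro s hs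
    have hs' : (0:ℝ) < s := hs
    have h3 : Complex.exp (-((r:ℂ) * (s:ℂ))) = ((Real.exp (-(r * s)) : ℝ) : ℂ) := by
      push_cast
      rfl
    simp only [ph, if_pos hs', h3]
    rw [← Complex.ofReal_mul]
    congr 1
    have h4 : Real.exp (-((n:ℝ) ^ 2 / (4 * s)) - r * s) =
        Real.exp (-((n:ℝ) ^ 2 / (4 * s))) * Real.exp (-(r * s)) := by
      rw [← Real.exp_add]; congr 1
    rw [h4]
    ring
  rw [h2, integral_complex_ofReal, integral_const_mul, h1]
  congr 1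
  have hpi : 0 < Real.sqrt Real.pi := Real.sqrt_pos.2 Real.pi_pos
  field_simp



theorem ph_cpow (n : ℕ) : cpow (ph 1) n =ᵐ[volume] ph (n + 1) := by
  induction n with
  | zero => exact Filter.EventuallyEq.rfl
  | succ n ih =>
    have h1 : cpow (ph 1) (n + 1) = cv (ph 1) (ph (n + 1)) := by
      funext t
      show cv (ph 1) (cpow (ph 1) n) t = _
      unfold cv
      apply intervalIntegral.integral_congr_ae
      filter_upwards [ih] with s hs _
      rw [hs]
    rw [h1]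
    obtain ⟨C1, hC1, hb1⟩ := ph_ebd 1
    obtain ⟨C2, hC2, hb2⟩ := ph_ebd (n + 1)
    obtain ⟨C3, hC3, hb3⟩ := ph_ebd (n + 1 + 1)
    have hb4 := (cv_ebd C1 C2 0 hC1 hC2 _ _ hb1 hb2).2
    refine lap_inj_real _ _ _ _ 1 _ _ hb4 hb3 ?_
    intro r hr
    have hr0 : 0 < r := by linarith
    rw [lap_cv (max C1 C2) 0 (le_max_of_le_left hC1) _ _ (ebd_mono' hb1 (le_max_left _ _))
      (ebd_mono' hb2 (le_max_right _ _)) r (by simpa using hr0),
      lap_ph' 1 le_rfl r hr0, lap_ph' (n+1) (by omega) r hr0, lap_ph' (n+1+1) (by omega) r hr0,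
      ← Complex.ofReal_mul, ← Real.exp_add]
    congr 2
    push_cast
    ring

end Pool.Agent.Helper5.PG
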