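import Mathlib
import Pool.Agent.Helper5.Pf.Defs
import Pool.Agent.Helper5.Pf.PhEbd
import Pool.Agent.Helper5.Pf.PhCpow
import Pool.Agent.Helper5.Pf.FlatFun

set_option autoImplicit false
open MeasureTheory Set Filter Topology

namespace Pool.Agent.Helper5.PG

theorem bdInt (F : ℝ → ℂ) (hF : Measurable F) (B : ℝ) (hB : ∀ t : ℝ, 0 < t → ‖F t‖ ≤ B)
    (h1 : ∀ t : ℝ, 1 ≤ t → F t = 0) : IntegrableOn F (Ioi (0:ℝ)) := by
  have hg : Integrable ((Ioc (0:ℝ) 1).indicator (fun _ => B)) volume := by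
    apply IntegrableOn.integrable_indicator _ measurableSet_Ioc
    exact integrableOn_const (by simp)
  refine Integrable.mono' (hg.integrableOn (s := Ioi (0:ℝ))) hF.aestronglyMeasurable ?_
  rw [ae_restrict_iff' measurableSet_Ioi]
  refine Eventually.of_forall fun t ht => ?_
  have ht' : 0 < t := ht
  by_cases h : t ≤ 1
  · rw [indicator_of_mem (show t ∈ Ioc (0:ℝ) 1 from ⟨ht', h⟩)]
    exact hB t ht'
  · rw [h1 t (by linarith), norm_zero]
    apply indicator_nonneg
    intro x hx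
    exact le_trans (norm_nonneg _) (hB x hx.1)

theorem ph_not_gen (w : ℝ → ℝ) (hw : IsWeight w) : ¬ IsPolyGen w (ph 1) := by
  rintro ⟨-, H⟩
  obtain ⟨Φ, hΦm, ⟨C, hC⟩, hΦ1, ⟨δ, hδ, hΦδ⟩, hΦ0⟩ := flat_fun
  have hC0 : 0 ≤ C := le_trans (norm_nonneg _) (hC 0)
  set d : ℝ := min δ 1 / 2 with hd
  have hmin : 0 < min δ 1 := lt_min hδ one_pos
  have hdpos : 0 < d := by rw [hd]; linarith
  have hdδ : d < δ := by
    have := min_le_left δ 1
    rw [hd]; linarith
  have hd1 : d < 1 := by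
    have := min_le_right δ 1
    rw [hd]; linarith
  set h : ℝ → ℂ := (Ioc (0:ℝ) d).indicator (fun t => (starRingEnd ℂ) (Φ t)) with hh
  have hhm : Measurable h := by
    rw [hh]
    exact (Complex.continuous_conj.measurable.comp hΦm).indicator measurableSet_Ioc
  -- h in L1
  have hhL : InL1 w h := by
    unfold InL1
    have hwc : ContinuousOn w (Icc 0 d) := hw.cont.mono Icc_subset_Ici_self
    have hwi : IntegrableOn (fun t => C * w t) (Ioc 0 d) :=
      (hwc.integrableOn_Icc.mono_set Ioc_subset_Icc_self).const_mul C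
    have hwm : AEStronglyMeasurable w (volume.restrict (Ioc 0 d)) :=
      (hwc.mono Ioc_subset_Icc_self).aestronglyMeasurable measurableSet_Ioc
    have hI : IntegrableOn (fun t => (starRingEnd ℂ) (Φ t) * (w t : ℂ)) (Ioc 0 d) := by
      refine Integrable.mono' hwi ?_ ?_
      · exact ((Complex.continuous_conj.measurable.comp hΦm).aestronglyMeasurable).mul
          (Complex.continuous_ofReal.comp_aestronglyMeasurable hwm)
      · rw [ae_restrict_iff' measurableSet_Ioc]
        refine Eventually.of_forall fun t ht => ?_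
        have hwt : 0 < w t := hw.pos t ht.1.le
        rw [norm_mul, Complex.norm_real, Real.norm_of_nonneg hwt.le]
        apply mul_le_mul_of_nonneg_right _ hwt.le
        rw [RCLike.norm_conj]
        exact hC t
    have hI2 := (hI.integrable_indicator measurableSet_Ioc).integrableOn (s := Ioi (0:ℝ))
    refine hI2.congr_fun (fun t _ => ?_) measurableSet_Ioi
    by_cases ht : t ∈ Ioc (0:ℝ) d
    · simp only [hh, indicator_of_mem ht]
    · simp only [hh, indicator_of_notMem ht, zero_mul]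
  -- lower bound of w
  obtain ⟨t0, ht0, hmin0⟩ := (isCompact_Icc (a := (0:ℝ)) (b := 1)).exists_isMinOn
    ⟨0, by simp⟩ (hw.cont.mono Icc_subset_Ici_self)
  have hc0 : 0 < w t0 := hw.pos t0 ht0.1
  have hlow : ∀ t : ℝ, 0 ≤ t → t ≤ 1 → w t0 ≤ w t := fun t h1 h2 => hmin0 ⟨h1, h2⟩
  -- kappa
  set f2 : ℝ → ℝ := (Ioc (0:ℝ) d).indicator (fun t => ‖Φ t‖ ^ 2) with hf2
  have hΦh : ∀ t, Φ t * h t = ((f2 t : ℝ) : ℂ) := by
    intro t
    by_cases ht : t ∈ Ioc (0:ℝ) d
    · simp only [hh, hf2, indicator_of_mem ht]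
      rw [Complex.mul_conj']
      push_cast
      rfl
    · simp only [hh, hf2, indicator_of_notMem ht, mul_zero, Complex.ofReal_zero]
  have hf2m : Measurable f2 := by
    rw [hf2]
    exact (hΦm.norm.pow_const 2).indicator measurableSet_Ioc
  have hIh : IntegrableOn (fun t => Φ t * h t) (Ioi (0:ℝ)) := by
    apply bdInt (fun t => Φ t * h t) (hΦm.mul hhm) (C * C)
    · intro t _
      show ‖Φ t * h t‖ ≤ C * C
      rw [norm_mul]
      apply mul_le_mul (hC t) _ (norm_nonneg _) hC0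
      by_cases ht : t ∈ Ioc (0:ℝ) d
      · simp only [hh, indicator_of_mem ht, RCLike.norm_conj]; exact hC t
      · simp only [hh, indicator_of_notMem ht, norm_zero]; exact hC0
    · intro t ht
      show Φ t * h t = 0
      rw [hΦ1 t ht, zero_mul]
  have hIf2 : IntegrableOn f2 (Ioi (0:ℝ)) := by
    have := hIh.re
    refine this.congr (Eventually.of_forall fun t => ?_)
    simp only [hΦh]
    simp
  set κ : ℝ := ∫ t in Ioi (0:ℝ), f2 t with hκ
  have hκpos : 0 < κ := by
    rw [hκ, integral_pos_iff_support_of_nonneg _ hIf2]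
    · have hsub : Ioc (0:ℝ) d ⊆ Function.support f2 := by
        intro t ht
        simp only [Function.mem_support, hf2, indicator_of_mem ht]
        have : Φ t ≠ 0 := hΦδ t ht.1 (lt_of_le_of_lt ht.2 hdδ)
        positivity
      refine lt_of_lt_of_le ?_ (measure_mono hsub)
      rw [Measure.restrict_apply measurableSet_Ioc]
      have : Ioc (0:ℝ) d ∩ Ioi 0 = Ioc 0 d := by
        ext x; simp only [mem_inter_iff, mem_Ioc, mem_Ioi]; tauto
      rw [this, Real.volume_Ioc]
      simp [hdpos]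
    · intro t
      apply indicator_nonneg
      intro x _
      positivity
  have hIκ : ∫ t in Ioi (0:ℝ), Φ t * h t = (κ : ℂ) := by
    have h1 : ∫ t in Ioi (0:ℝ), Φ t * h t = ∫ t in Ioi (0:ℝ), ((f2 t : ℝ) : ℂ) :=
      integral_congr_ae (Eventually.of_forall hΦh)
    rw [h1]
    exact integral_ofReal
  -- integrability of Φ * ph
  have hIp : ∀ k : ℕ, IntegrableOn (fun t => Φ t * ph (k + 1) t) (Ioi (0:ℝ)) := by
    intro k
    obtain ⟨C2, hC2, hE⟩ := ph_ebd (k + 1)
    apply bdInt (fun t => Φ t * ph (k + 1) t) (hΦm.mul hE.meas) (C * C2)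
    · intro t ht
      show ‖Φ t * ph (k + 1) t‖ ≤ C * C2
      rw [norm_mul]
      have h2 := hE.bd t ht
      rw [zero_mul, Real.exp_zero, mul_one] at h2
      exact mul_le_mul (hC t) h2 (norm_nonneg _) hC0
    · intro t ht
      show Φ t * ph (k + 1) t = 0
      rw [hΦ1 t ht, zero_mul]
  -- choose epsilon
  set C' : ℝ := C + 1 with hC'
  have hC'pos : 0 < C' := by rw [hC']; linarith
  obtain ⟨n, c, hn⟩ := H h hhL (κ * w t0 / (2 * C')) (by positivity)
  set g : ℝ → ℂ := fun t => h t - ∑ k ∈ Finset.range n, c k * cpow (ph 1) k t with hg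
  have hae : ∀ᵐ t ∂(volume.restrict (Ioi (0:ℝ))), ∀ k : ℕ, cpow (ph 1) k t = ph (k + 1) t := by
    apply ae_restrict_of_ae
    rw [ae_all_iff]
    intro k
    exact ph_cpow k
  have hIg : ∫ t in Ioi (0:ℝ), Φ t * g t = (κ : ℂ) := by
    have h1 : ∫ t in Ioi (0:ℝ), Φ t * g t
        = ∫ t in Ioi (0:ℝ), (Φ t * h t - ∑ k ∈ Finset.range n, c k * (Φ t * ph (k + 1) t)) := by
      apply integral_congr_ae
      filter_upwards [hae] with t ht
      simp only [hg]
      rw [mul_sub, Finset.mul_sum]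
      congr 1
      apply Finset.sum_congr rfl
      intro k _
      rw [ht k]; ring
    rw [h1, integral_sub hIh, integral_finset_sum, hIκ]
    · have h3 : ∑ k ∈ Finset.range n, ∫ t in Ioi (0:ℝ), c k * (Φ t * ph (k + 1) t) = 0 := by
        apply Finset.sum_eq_zero
        intro k _
        rw [integral_const_mul, hΦ0 k, mul_zero]
      rw [h3, sub_zero]
    · intro k _
      exact (hIp k).const_mul (c k)
    · exact integrable_finset_sum _ (fun k _ => (hIp k).const_mul (c k))
  have hle : ‖∫ t in Ioi (0:ℝ), Φ t * g t‖ₑ ≤ ∫⁻ t in Ioi (0:ℝ), ‖Φ t * g t‖ₑ :=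
    enorm_integral_le_lintegral_enorm _
  have hle2 : ∫⁻ t in Ioi (0:ℝ), ‖Φ t * g t‖ₑ
      ≤ ∫⁻ t in Ioi (0:ℝ), ENNReal.ofReal (C' / w t0) * ENNReal.ofReal (‖g t‖ * w t) := by
    apply lintegral_mono_ae
    rw [ae_restrict_iff' measurableSet_Ioi]
    refine Eventually.of_forall fun t ht => ?_
    have ht' : 0 < t := ht
    rw [← ofReal_norm_eq_enorm, ← ENNReal.ofReal_mul (by positivity)]
    apply ENNReal.ofReal_le_ofReal
    have hwt : 0 < w t := hw.pos t ht'.le
    by_cases h1 : t ≤ 1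
    · have h2 := hlow t ht'.le h1
      rw [norm_mul]
      have h3 : ‖Φ t‖ ≤ C' := by rw [hC']; linarith [hC t]
      have h4 : ‖Φ t‖ * ‖g t‖ ≤ C' * ‖g t‖ := mul_le_mul_of_nonneg_right h3 (norm_nonneg _)
      have h5 : C' * ‖g t‖ ≤ C' / w t0 * (‖g t‖ * w t) := by
        rw [div_mul_eq_mul_div, le_div_iff₀ hc0]
        have h6 : 0 ≤ C' * ‖g t‖ := by positivity
        nlinarith
      linarith
    · rw [hΦ1 t (by linarith), zero_mul, norm_zero]
      positivity
  rw [lintegral_const_mul' _ _ ENNReal.ofReal_ne_top] at hle2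
  have hlt : ENNReal.ofReal (C' / w t0) * ∫⁻ t in Ioi (0:ℝ), ENNReal.ofReal (‖g t‖ * w t)
      ≤ ENNReal.ofReal (κ / 2) := by
    have h1 : ENNReal.ofReal (C' / w t0) * ∫⁻ t in Ioi (0:ℝ), ENNReal.ofReal (‖g t‖ * w t)
        ≤ ENNReal.ofReal (C' / w t0) * ENNReal.ofReal (κ * w t0 / (2 * C')) := by
      gcongr
    refine le_trans h1 ?_
    rw [← ENNReal.ofReal_mul (by positivity)]
    apply ENNReal.ofReal_le_ofReal
    apply le_of_eq
    field_simp
  have hfin : ENNReal.ofReal κ ≤ ENNReal.ofReal (κ / 2) := by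
    have h1 : ‖∫ t in Ioi (0:ℝ), Φ t * g t‖ₑ = ENNReal.ofReal κ := by
      rw [hIg, ← ofReal_norm_eq_enorm, Complex.norm_real, Real.norm_of_nonneg hκpos.le]
    rw [← h1]
    exact le_trans hle (le_trans hle2 hlt)
  rw [ENNReal.ofReal_le_ofReal_iff (by positivity)] at hfin
  linarith

end Pool.Agent.Helper5.PG
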