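import Mathlib
import Pool.Agent.Helper5.Pf.Defs
import Pool.Agent.Helper5.Pf.GenScale
import Pool.Agent.Helper5.Pf.GenExpo
import Pool.Agent.Helper5.Pf.PhEbd
import Pool.Agent.Helper5.Pf.PhNotGen
import Pool.Agent.Helper5.Pe.GenCongr
import Pool.Agent.Helper5.Pe.Inl1OfEbd
import Pool.Agent.Helper5.Pt.GenSmul

set_option autoImplicit false

open MeasureTheory Set Filter Topology

namespace Pool.Agent.Helper5.PG

theorem weight_scale (w : ℝ → ℝ) (hw : IsWeight w) (s : ℝ) (hs : 0 < s) :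
    IsWeight (fun t => w (s * t)) := by
  refine ⟨?_, fun t ht => hw.pos _ (by positivity), fun t r ht hr => ?_⟩
  · refine hw.cont.comp (continuous_const.mul continuous_id).continuousOn ?_
    intro t ht
    have : (0:ℝ) ≤ t := ht
    show 0 ≤ s * t
    positivity
  · have := hw.submul (s * t) (s * r) (by positivity) (by positivity)
    show w (s * (t + r)) ≤ w (s * t) * w (s * r)
    rwa [mul_add]

theorem flatf_eq (c : ℝ) (hc : 0 < c) (γ : ℂ) (t : ℝ) (ht : 0 < t) :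
    flatf c γ t = Complex.exp (γ * t) *
      ((((4 * c) ^ (-(3 / 2) : ℝ) * (2 * Real.sqrt Real.pi) : ℝ) : ℂ) • fun t : ℝ =>
        ph 1 ((4 * c)⁻¹ * t)) t := by
  have h1 : 0 < (4 * c)⁻¹ * t := by positivity
  simp only [flatf, Pi.smul_apply, smul_eq_mul, ph, h1, if_true]
  rw [mul_comm]
  congr 1
  rw [← Complex.ofReal_mul]
  congr 1
  have h2 : ((4 * c)⁻¹ * t) ^ (-(3 / 2) : ℝ) = ((4 * c) ^ (-(3 / 2) : ℝ))⁻¹ * t ^ (-(3 / 2) : ℝ) := by
    rw [Real.mul_rpow (by positivity) ht.le, Real.inv_rpow (by positivity)]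
  have h3 : ((1 : ℕ) : ℝ) ^ 2 / (4 * ((4 * c)⁻¹ * t)) = c / t := by
    push_cast
    field_simp
  have h4 : (0:ℝ) < (4 * c) ^ (-(3 / 2) : ℝ) := Real.rpow_pos_of_pos (by positivity) _
  have h5 : (0:ℝ) < Real.sqrt Real.pi := Real.sqrt_pos.mpr Real.pi_pos
  rw [h2, h3]
  push_cast
  field_simp

theorem flatf_inl1 (w : ℝ → ℝ) (hw : IsWeight w) (hr : IsRadical w) (c : ℝ) (hc : 0 < c) (γ : ℂ) :
    InL1 w (flatf c γ) := by
  obtain ⟨C, hC, hb⟩ := ph_ebd 1
  obtain ⟨K, hK⟩ : ∃ K : ℝ, K = (4 * c) ^ (-(3 / 2) : ℝ) * (2 * Real.sqrt Real.pi) := ⟨_, rfl⟩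
  have hKp : 0 ≤ K := by rw [hK]; positivity
  have hE : EBd (K * C) γ.re (fun t => Complex.exp (γ * t) * (K * ph 1 ((4 * c)⁻¹ * t))) := by
    refine ⟨?_, fun t ht => ?_, fun t ht => ?_⟩
    · have h1 : Measurable (fun t : ℝ => ph 1 ((4 * c)⁻¹ * t)) :=
        hb.meas.comp (measurable_const.mul measurable_id)
      have h2 : Measurable (fun t : ℝ => Complex.exp (γ * t)) := by fun_prop
      exact h2.mul (measurable_const.mul h1)
    · have h1 : (4 * c)⁻¹ * t ≤ 0 := mul_nonpos_of_nonneg_of_nonpos (by positivity) ht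
      rw [hb.zero _ h1]; simp
    · have h1 : 0 < (4 * c)⁻¹ * t := by positivity
      have h2 := hb.bd _ h1
      simp only [zero_mul, Real.exp_zero, mul_one] at h2
      rw [norm_mul, norm_mul, Complex.norm_exp, Complex.norm_real, Real.norm_of_nonneg hKp]
      have h3 : (γ * (t : ℂ)).re = γ.re * t := by simp
      rw [h3, mul_comm (K * C)]
      exact mul_le_mul_of_nonneg_left (mul_le_mul_of_nonneg_left h2 hKp) (Real.exp_pos _).le
  have h1 := (inl1_of_ebd w hw hr _ _ (mul_nonneg hKp hC) _ hE).1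
  unfold InL1 at h1 ⊢
  refine h1.congr_fun (fun t ht => ?_) measurableSet_Ioi
  simp only
  rw [flatf_eq c hc γ t ht, hK]
  simp [Pi.smul_apply, smul_eq_mul]

theorem flatf_not_gen (w : ℝ → ℝ) (hw : IsWeight w) (c : ℝ) (hc : 0 < c) (γ : ℂ) :
    ¬ IsPolyGen w (flatf c γ) := by
  intro h
  obtain ⟨K, hK⟩ : ∃ K : ℂ, K = (((4 * c) ^ (-(3 / 2) : ℝ) * (2 * Real.sqrt Real.pi) : ℝ) : ℂ) :=
    ⟨_, rfl⟩
  have hK0 : K ≠ 0 := by
    rw [hK, Complex.ofReal_ne_zero]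
    have h4 : (0:ℝ) < (4 * c) ^ (-(3 / 2) : ℝ) := Real.rpow_pos_of_pos (by positivity) _
    have h5 : (0:ℝ) < Real.sqrt Real.pi := Real.sqrt_pos.mpr Real.pi_pos
    positivity
  have h1 : IsPolyGen w (fun t : ℝ => Complex.exp (γ * t) *
      (K • fun t : ℝ => ph 1 ((4 * c)⁻¹ * t)) t) := by
    refine gen_congr w hw _ _ (fun t ht => ?_) h
    rw [flatf_eq c hc γ t ht, hK]
  obtain ⟨hw', h2⟩ := gen_expo w hw γ _ h1
  have h3 := gen_smul _ hw' _ K⁻¹ (inv_ne_zero hK0) h2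
  rw [smul_smul, inv_mul_cancel₀ hK0, one_smul] at h3
  have h4 := gen_scale _ hw' (4 * c) (by positivity) _ h3
  have h5 : (fun t : ℝ => ph 1 ((4 * c)⁻¹ * ((4 * c) * t))) = ph 1 := by
    funext t
    congr 1
    rw [← mul_assoc, inv_mul_cancel₀ (by positivity), one_mul]
  rw [h5] at h4
  exact ph_not_gen _ (weight_scale _ hw' (4 * c) (by positivity)) h4

end Pool.Agent.Helper5.PG
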